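import Pool.Agent.RO5.Z5
import Pool.Agent.RHK.FLine

/-!
Rohrlich's question for all tuples of non-integral rationals of level 5, 8, 10, 12, and for all
tuples, of any level, with class function of level 5, 8, 10, 12 or in the span of two of the
characters `(-1/m)`, `(-2/m)`, `(-3/m)`; algebraic independence of the corresponding periods.
-/

namespace Pool.Agent.Results.MP_c2409d_nt.LevelsFiveEightTenTwelve

open scoped NumberTheorySymbols

/-- the gamma product is an algebraic multiple of `π ^ (r / 2)` -/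
def GammaMult {r : ℕ} (a : Fin r → ℚ) : Prop :=
  ∃ α : ℝ, IsAlgebraic ℚ α ∧ ∏ i, Real.Gamma ((a i : ℚ) : ℝ) = α * Real.pi ^ ((r : ℝ) / 2)

/-- the fractional part identity for the common denominator `M` -/
def FracId (M : ℕ) {r : ℕ} (a : Fin r → ℚ) : Prop :=
  ∀ m : ℕ, 1 ≤ m → m ≤ M → Nat.Coprime m M → ∑ i, Int.fract ((m : ℚ) * a i) = (r : ℚ) / 2

/-- `M` is a common denominator of the `a i` -/
def ComDen (M : ℕ) {r : ℕ} (a : Fin r → ℚ) : Prop := 0 < M ∧ ∀ i, ∃ z : ℤ, (M : ℚ) * a i = z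

/-- the number of integers among the `a i` -/
def numInt {r : ℕ} (a : Fin r → ℚ) : ℕ :=
  (Finset.univ.filter fun i => Int.fract (a i) = 0).card

/-- all `D * a i` are integers, or `∑ {m a i}` only depends on `m` modulo `D` (for `m` prime to
`M D`) -/
def ClassLevel (D M : ℕ) {r : ℕ} (a : Fin r → ℚ) : Prop :=
  (∀ i, ∃ z : ℤ, (D : ℚ) * a i = z) ∨
  ∀ m m' : ℕ, m.Coprime (M * D) → m'.Coprime (M * D) → m ≡ m' [MOD D] →
    ∑ i, Int.fract ((m : ℚ) * a i) = ∑ i, Int.fract ((m' : ℚ) * a i)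

/-- the class function of the non-integral entries is `A (-c/m) + B (-d/m)` (Jacobi symbols) -/
def HasClass (c d : ℤ) (M : ℕ) {r : ℕ} (a : Fin r → ℚ) (A B : ℚ) : Prop :=
  ∀ m : ℕ, Nat.Coprime m (6 * M) → ∑ i, Int.fract ((m : ℚ) * a i) =
    ((r : ℚ) - numInt a) / 2 + A * J(-c | m) + B * J(-d | m)

theorem result :
    (AlgebraicIndependent ℚ
      ![Real.Gamma (1 / 4) / Real.sqrt Real.pi, Real.Gamma (1 / 3) / Real.sqrt Real.pi] ∧
    AlgebraicIndependent ℚ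
      ![Real.Gamma (1 / 5) / Real.sqrt Real.pi, Real.Gamma (2 / 5) / Real.sqrt Real.pi] ∧
    AlgebraicIndependent ℚ
      ![Real.Gamma (1 / 4) / Real.sqrt Real.pi, Real.Gamma (1 / 8) * Real.Gamma (3 / 8) / Real.pi] ∧
    AlgebraicIndependent ℚ
      ![Real.Gamma (1 / 3) / Real.sqrt Real.pi, Real.Gamma (1 / 8) * Real.Gamma (3 / 8) / Real.pi]) ∧
    (∀ (r : ℕ) (a : Fin r → ℚ) (M : ℕ), ComDen M a → (∀ (i : Fin r) (z : ℤ), a i ≠ z) →
      ((∃ D ∈ ({5, 8, 10, 12} : Finset ℕ), ClassLevel D M a) ∨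
        ∃ (c d : ℤ) (A B : ℚ), (c = 1 ∨ c = 2 ∨ c = 3) ∧ (d = 1 ∨ d = 2 ∨ d = 3) ∧
          HasClass c d M a A B) → (GammaMult a ↔ FracId M a)) ∧
    (∀ D ∈ ({5, 8, 10, 12} : Finset ℕ), ∃ U : ℕ → ℚ, (∃ m : ℕ, m.Coprime D ∧ U m ≠ 0) ∧
      ∀ (r : ℕ) (a : Fin r → ℚ) (M : ℕ), ComDen M a →
        (∀ (i : Fin r) (n : ℕ), a i ≠ -(n : ℚ)) → ClassLevel D M a →
          ¬ (GammaMult a ↔ FracId M a) → 0 < numInt a ∧ ∀ m : ℕ, m.Coprime (M * D) →
            ∑ i, Int.fract ((m : ℚ) * a i) = ((r : ℚ) - numInt a) / 2 + numInt a * U m) ∧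
    ∀ c d : ℤ, (c = 1 ∨ c = 2 ∨ c = 3) → (d = 1 ∨ d = 2 ∨ d = 3) → c ≠ d →
      ∃ u v : ℚ, u ≠ 0 ∧ v ≠ 0 ∧ ∀ (r : ℕ) (a : Fin r → ℚ) (M : ℕ) (A B : ℚ), ComDen M a →
        (∀ (i : Fin r) (n : ℕ), a i ≠ -(n : ℚ)) → HasClass c d M a A B →
          ¬ (GammaMult a ↔ FracId M a) →
            0 < numInt a ∧ A = u * numInt a ∧ B = v * numInt a := by
  have hpair : ∀ c d : ℤ, (c = 1 ∨ c = 2 ∨ c = 3) → (d = 1 ∨ d = 2 ∨ d = 3) → c ≠ d →
      ∃ u v : ℚ, u ≠ 0 ∧ v ≠ 0 ∧ ∀ (r : ℕ) (a : Fin r → ℚ) (D : ℕ) (A B : ℚ), ComDen D a →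
        (∀ (i : Fin r) (n : ℕ), a i ≠ -(n : ℚ)) → HasClass c d D a A B →
          ¬ (GammaMult a ↔ FracId D a) →
            0 < numInt a ∧ A = u * numInt a ∧ B = v * numInt a := by
    intro c d hc hd hcd
    obtain ⟨u, v, hu, hv, h⟩ := ROH8.pair_all hc hd hcd
    exact ⟨u, v, hu, hv, fun r a D A B hD hnp hcl hne => h r a D A B hD.1 hD.2 hnp hcl hne⟩
  have hgen : ∀ (r : ℕ) (a : Fin r → ℚ) (D : ℕ) (c d : ℤ) (A B : ℚ), ComDen D a →
      (∀ (i : Fin r) (z : ℤ), a i ≠ z) → (c = 1 ∨ c = 2 ∨ c = 3) → (d = 1 ∨ d = 2 ∨ d = 3) →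
      HasClass c d D a A B → (GammaMult a ↔ FracId D a) := by
    intro r a D c d A B hD hni hc hd hcl
    have hz : numInt a = 0 := ROH8.intCount_eq_zero hni
    have key : ∀ (e : ℤ) (A B : ℚ), (e = 1 ∨ e = 2 ∨ e = 3) → c ≠ e → HasClass c e D a A B →
        (GammaMult a ↔ FracId D a) := by
      intro e A B he hce hcl'
      by_contra hne
      obtain ⟨u, v, -, -, h⟩ := hpair c e hc he hce
      have h1 := (h r a D A B hD (fun i n h0 => hni i (-(n : ℤ)) (by push_cast; exact h0)) hcl'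
        hne).1
      omega
    by_cases hcd : c = d
    · subst hcd
      obtain ⟨e, he, hce⟩ : ∃ e : ℤ, (e = 1 ∨ e = 2 ∨ e = 3) ∧ c ≠ e := by
        rcases hc with rfl | rfl | rfl
        · exact ⟨2, by norm_num, by norm_num⟩
        · exact ⟨1, by norm_num, by norm_num⟩
        · exact ⟨1, by norm_num, by norm_num⟩
      refine key e (A + B) 0 he hce fun m hm => ?_
      rw [hcl m hm]
      ring
    · exact key d A B hd hcd hcl
  -- the four full levels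
  have hlev : ∀ D ∈ ({5, 8, 10, 12} : Finset ℕ), ∃ J : Finset ℕ, RHK.Ind D J ∧
      D.totient ≤ 2 * J.card := by
    intro D hD
    simp only [Finset.mem_insert, Finset.mem_singleton] at hD
    rcases hD with rfl | rfl | rfl | rfl
    · exact ⟨_, RO5.ind_D5, by decide⟩
    · exact ⟨_, RO5.ind_D8, by decide⟩
    · exact ⟨_, RO5.ind_D10, by decide⟩
    · exact ⟨_, RO5.ind_D12, by decide⟩
  have hcl : ∀ {D M r : ℕ} {a : Fin r → ℚ}, ClassLevel D M a → RHK.ClassLevel D M a := by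
    rintro D M r a (h | h)
    · exact RHK.classLevel_of_dvd h
    · exact h
  have hline : ∀ D ∈ ({5, 8, 10, 12} : Finset ℕ), ∃ U : ℕ → ℚ, (∃ m : ℕ, m.Coprime D ∧ U m ≠ 0) ∧
      ∀ (r : ℕ) (a : Fin r → ℚ) (M : ℕ), ComDen M a →
        (∀ (i : Fin r) (n : ℕ), a i ≠ -(n : ℚ)) → ClassLevel D M a →
          ¬ (GammaMult a ↔ FracId M a) → 0 < numInt a ∧ ∀ m : ℕ, m.Coprime (M * D) →
            ∑ i, Int.fract ((m : ℚ) * a i) = ((r : ℚ) - numInt a) / 2 + numInt a * U m := by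
    intro D hD
    obtain ⟨J, hJ, hc⟩ := hlev D hD
    obtain ⟨U, hU0, hU⟩ := hJ.line hc
    exact ⟨U, hU0, fun r a M hM hnp h hne => hU r a M hM.1 hM.2 hnp (hcl h) hne⟩
  refine ⟨⟨ROH8.ind13, RO5.ind5, ROH8.ind12, ROH8.ind32⟩, ?_, hline, hpair⟩
  rintro r a M hM hni (⟨D, hD, h⟩ | ⟨c, d, A, B, hc, hd, h⟩)
  · by_contra hne
    obtain ⟨U, -, hU⟩ := hline D hD
    have h1 := (hU r a M hM (fun i n h0 => hni i (-(n : ℤ)) (by push_cast; exact h0)) h hne).1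
    have hz : numInt a = 0 := ROH8.intCount_eq_zero hni
    omega
  · exact hgen r a M c d A B hM hni hc hd h

end Pool.Agent.Results.MP_c2409d_nt.LevelsFiveEightTenTwelve
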