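import Pool.Agent.ROH8.ZMain

/-!
Algebraic independence of any two of `Γ(1/4)/√π`, `Γ(1/3)/√π`, `Γ(1/8)Γ(3/8)/π`, and Rohrlich's
question for all tuples, of any level, with class function in the span of two of the characters
`(-1/m)`, `(-2/m)`, `(-3/m)`; in particular for the denominators 8 and 12.
-/

namespace Pool.Agent.Results.MP_c2409d_nt.TwoQuadraticCharacters

open scoped NumberTheorySymbols

/-- the gamma product is an algebraic multiple of `π ^ (r / 2)` -/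
def GammaMult {r : ℕ} (a : Fin r → ℚ) : Prop :=
  ∃ α : ℝ, IsAlgebraic ℚ α ∧ ∏ i, Real.Gamma ((a i : ℚ) : ℝ) = α * Real.pi ^ ((r : ℝ) / 2)

/-- the fractional part identity for the common denominator `D` -/
def FracId (D : ℕ) {r : ℕ} (a : Fin r → ℚ) : Prop :=
  ∀ m : ℕ, 1 ≤ m → m ≤ D → Nat.Coprime m D → ∑ i, Int.fract ((m : ℚ) * a i) = (r : ℚ) / 2

/-- `D` is a common denominator of the `a i` -/
def ComDen (D : ℕ) {r : ℕ} (a : Fin r → ℚ) : Prop := 0 < D ∧ ∀ i, ∃ z : ℤ, (D : ℚ) * a i = z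

/-- the number of integers among the `a i` -/
def numInt {r : ℕ} (a : Fin r → ℚ) : ℕ :=
  (Finset.univ.filter fun i => Int.fract (a i) = 0).card

/-- the class function of the non-integral entries is `A (-c/m) + B (-d/m)` (Jacobi symbols) -/
def HasClass (c d : ℤ) (D : ℕ) {r : ℕ} (a : Fin r → ℚ) (A B : ℚ) : Prop :=
  ∀ m : ℕ, Nat.Coprime m (6 * D) → ∑ i, Int.fract ((m : ℚ) * a i) =
    ((r : ℚ) - numInt a) / 2 + A * J(-c | m) + B * J(-d | m)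

theorem result :
    (AlgebraicIndependent ℚ
      ![Real.Gamma (1 / 4) / Real.sqrt Real.pi, Real.Gamma (1 / 3) / Real.sqrt Real.pi] ∧
    AlgebraicIndependent ℚ
      ![Real.Gamma (1 / 4) / Real.sqrt Real.pi, Real.Gamma (1 / 8) * Real.Gamma (3 / 8) / Real.pi] ∧
    AlgebraicIndependent ℚ
      ![Real.Gamma (1 / 3) / Real.sqrt Real.pi, Real.Gamma (1 / 8) * Real.Gamma (3 / 8) / Real.pi]) ∧
    (∀ (r : ℕ) (a : Fin r → ℚ) (D : ℕ), ComDen D a → (∀ (i : Fin r) (z : ℤ), a i ≠ z) →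
      ((∀ i, ∃ z : ℤ, 8 * a i = z) ∨ (∀ i, ∃ z : ℤ, 12 * a i = z) ∨
        ∃ (c d : ℤ) (A B : ℚ), (c = 1 ∨ c = 2 ∨ c = 3) ∧ (d = 1 ∨ d = 2 ∨ d = 3) ∧
          HasClass c d D a A B) → (GammaMult a ↔ FracId D a)) ∧
    (∀ c d : ℤ, (c = 1 ∨ c = 2 ∨ c = 3) → (d = 1 ∨ d = 2 ∨ d = 3) → c ≠ d →
      ∃ u v : ℚ, u ≠ 0 ∧ v ≠ 0 ∧ ∀ (r : ℕ) (a : Fin r → ℚ) (D : ℕ) (A B : ℚ), ComDen D a →
        (∀ (i : Fin r) (n : ℕ), a i ≠ -(n : ℚ)) → HasClass c d D a A B →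
          ¬ (GammaMult a ↔ FracId D a) →
            0 < numInt a ∧ A = u * numInt a ∧ B = v * numInt a) ∧
    ∀ (r : ℕ) (a : Fin r → ℚ) (D : ℕ),
      ((∀ i, ∃ z : ℤ, 8 * a i = z) → ∃ A B : ℚ, HasClass 1 2 D a A B) ∧
      ((∀ i, ∃ z : ℤ, 12 * a i = z) → ∃ A B : ℚ, HasClass 1 3 D a A B) := by
  have hpair : ∀ c d : ℤ, (c = 1 ∨ c = 2 ∨ c = 3) → (d = 1 ∨ d = 2 ∨ d = 3) → c ≠ d →
      ∃ u v : ℚ, u ≠ 0 ∧ v ≠ 0 ∧ ∀ (r : ℕ) (a : Fin r → ℚ) (D : ℕ) (A B : ℚ), ComDen D a →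
        (∀ (i : Fin r) (n : ℕ), a i ≠ -(n : ℚ)) → HasClass c d D a A B →
          ¬ (GammaMult a ↔ FracId D a) →
            0 < numInt a ∧ A = u * numInt a ∧ B = v * numInt a := by
    intro c d hc hd hcd
    obtain ⟨u, v, hu, hv, h⟩ := ROH8.pair_all hc hd hcd
    exact ⟨u, v, hu, hv, fun r a D A B hD hnp hcl hne => h r a D A B hD.1 hD.2 hnp hcl hne⟩
  have h8 : ∀ (r : ℕ) (a : Fin r → ℚ) (D : ℕ), (∀ i, ∃ z : ℤ, 8 * a i = z) →
      ∃ A B : ℚ, HasClass 1 2 D a A B := fun r a D h => ROH8.class8 a h D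
  have h12 : ∀ (r : ℕ) (a : Fin r → ℚ) (D : ℕ), (∀ i, ∃ z : ℤ, 12 * a i = z) →
      ∃ A B : ℚ, HasClass 1 3 D a A B := fun r a D h => ROH8.class12 a h D
  -- two equal characters may be replaced by two different ones
  have hgen : ∀ (r : ℕ) (a : Fin r → ℚ) (D : ℕ) (c d : ℤ) (A B : ℚ), ComDen D a →
      (∀ (i : Fin r) (z : ℤ), a i ≠ z) → (c = 1 ∨ c = 2 ∨ c = 3) → (d = 1 ∨ d = 2 ∨ d = 3) →
      HasClass c d D a A B → (GammaMult a ↔ FracId D a) := by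
    intro r a D c d A B hD hni hc hd hcl
    have hz : numInt a = 0 := ROH8.intCount_eq_zero hni
    have key : ∀ (e : ℤ) (A B : ℚ), (e = 1 ∨ e = 2 ∨ e = 3) → c ≠ e → HasClass c e D a A B →
        (GammaMult a ↔ FracId D a) := by
      intro e A B he hce hcl'
      by_contra hne
      obtain ⟨u, v, -, -, h⟩ := hpair c e hc he hce
      have h1 := (h r a D A B hD (fun i n h0 => hni i (-(n : ℤ)) (by push_cast; exact h0)) hcl'
        hne).1
      omega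
    by_cases hcd : c = d
    · subst hcd
      obtain ⟨e, he, hce⟩ : ∃ e : ℤ, (e = 1 ∨ e = 2 ∨ e = 3) ∧ c ≠ e := by
        rcases hc with rfl | rfl | rfl
        · exact ⟨2, by norm_num, by norm_num⟩
        · exact ⟨1, by norm_num, by norm_num⟩
        · exact ⟨1, by norm_num, by norm_num⟩
      refine key e (A + B) 0 he hce fun m hm => ?_
      rw [hcl m hm]
      ring
    · exact key d A B hd hcd hcl
  refine ⟨⟨ROH8.ind13, ROH8.ind12, ROH8.ind32⟩, ?_, hpair, fun r a D => ⟨h8 r a D, h12 r a D⟩⟩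
  rintro r a D hD hni (h | h | ⟨c, d, A, B, hc, hd, h⟩)
  · obtain ⟨A, B, h'⟩ := h8 r a D h
    exact hgen r a D 1 2 A B hD hni (by norm_num) (by norm_num) h'
  · obtain ⟨A, B, h'⟩ := h12 r a D h
    exact hgen r a D 1 3 A B hD hni (by norm_num) (by norm_num) h'
  · exact hgen r a D c d A B hD hni hc hd h

end Pool.Agent.Results.MP_c2409d_nt.TwoQuadraticCharacters
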